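import Pool.Agent.Y896.SH.Stm

/-!
# SH-M: multiplication by `i ξ`
-/

set_option autoImplicit false

open MeasureTheory Filter Topology Set
open scoped ENNReal ComplexConjugate Nat

namespace Pool.Agent.Y974.SH

noncomputable section

/-- the measure -/
def mu (d : ℝ) : Measure ℝ := volume.restrict (Icc 1 (1 + d))

instance (d : ℝ) : IsFiniteMeasure (mu d) := by
  unfold mu
  infer_instance

/-- the multiplier -/
def cc (x : ℝ) : ℂ := Complex.I * (x : ℂ)

theorem cc_cont : Continuous cc := by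
  unfold cc
  fun_prop

theorem norm_cc (x : ℝ) : ‖cc x‖ = |x| := by
  rw [cc, norm_mul, Complex.norm_I, one_mul, Complex.norm_real, Real.norm_eq_abs]

theorem ae_mem (d : ℝ) : ∀ᵐ x ∂(mu d), x ∈ Icc 1 (1 + d) :=
  ae_restrict_mem measurableSet_Icc

theorem memLp_cc (d : ℝ) : MemLp cc ∞ (mu d) := by
  refine memLp_top_of_bound cc_cont.aestronglyMeasurable (1 + d) ?_
  filter_upwards [ae_mem d] with x hx
  rw [norm_cc, abs_of_nonneg (by linarith [hx.1])]
  exact hx.2

/-- the space -/
abbrev H (d : ℝ) : Type := Lp ℂ 2 (mu d)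

/-- the operator -/
def T (d : ℝ) : H d →L[ℝ] H d :=
  (ContinuousLinearMap.mul ℝ ℂ).holderL (mu d) ∞ 2 2 ((memLp_cc d).toLp cc)

theorem T_ae (d : ℝ) (h : H d) : (T d h : ℝ → ℂ) =ᵐ[mu d] fun x => cc x * h x := by
  have h1 := (ContinuousLinearMap.mul ℝ ℂ).coeFn_holder (r := 2) ((memLp_cc d).toLp cc) h
  have h2 := (memLp_cc d).coeFn_toLp
  have h3 : T d h = (ContinuousLinearMap.mul ℝ ℂ).holder 2 ((memLp_cc d).toLp cc) h := rfl
  rw [h3]
  filter_upwards [h1, h2] with x hx hx2
  rw [hx, hx2]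
  rfl

theorem Tn_ae (d : ℝ) (h : H d) (n : ℕ) :
    (((T d) ^ n) h : ℝ → ℂ) =ᵐ[mu d] fun x => cc x ^ n * h x := by
  induction n with
  | zero =>
    filter_upwards with x
    simp
  | succ n ih =>
    have h1 : ((T d) ^ (n + 1)) h = T d (((T d) ^ n) h) := by
      rw [pow_succ']
      rfl
    rw [h1]
    filter_upwards [ih, T_ae d (((T d) ^ n) h)] with x hx hx2
    rw [hx2, hx, pow_succ]
    ring

theorem inner_cc (x : ℝ) (a b : ℂ) : inner ℝ (cc x * a) b = -inner ℝ a (cc x * b) := by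
  rw [Complex.inner, Complex.inner, cc]
  simp only [map_mul, Complex.conj_I, Complex.conj_ofReal]
  simp
  ring

theorem skew (d : ℝ) (x y : H d) : inner ℝ (T d x) y = -inner ℝ x (T d y) := by
  rw [L2.inner_def, L2.inner_def, ← integral_neg]
  refine integral_congr_ae ?_
  filter_upwards [T_ae d x, T_ae d y] with t h1 h2
  rw [h1, h2]
  exact inner_cc t _ _

theorem norm_bound (d δ : ℝ) (hδ : 0 < δ) (hd : 0 < d) (hd1 : d ≤ 1) (hd2 : d ≤ δ / 3) :
    ‖(T d).comp (T d) + ContinuousLinearMap.id ℝ (H d)‖ ≤ δ := by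
  refine ContinuousLinearMap.opNorm_le_bound _ hδ.le fun h => ?_
  have h0 : ((T d).comp (T d) + ContinuousLinearMap.id ℝ (H d)) h = T d (T d h) + h := rfl
  rw [h0]
  apply Lp.norm_le_mul_norm_of_ae_le_mul
  filter_upwards [Lp.coeFn_add (T d (T d h)) h, T_ae d (T d h), T_ae d h, ae_mem d] with
    x h1 h2 h3 hx
  rw [h1, Pi.add_apply, h2, h3]
  have h4 : cc x * (cc x * h x) + h x = ((1 - x ^ 2 : ℝ) : ℂ) * h x := by
    rw [cc]
    push_cast
    linear_combination (x : ℂ) ^ 2 * h x * Complex.I_sq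
  rw [h4, norm_mul, Complex.norm_real, Real.norm_eq_abs]
  apply mul_le_mul_of_nonneg_right _ (norm_nonneg _)
  rw [abs_le]
  constructor
  · nlinarith [hx.1, hx.2]
  · nlinarith [hx.1, hx.2]

/-- the product of two members of the space -/
def gg {d : ℝ} (w h : H d) (x : ℝ) : ℂ := conj (w x) * h x

theorem int_gg {d : ℝ} (w h : H d) : Integrable (gg w h) (mu d) := by
  have h1 : MemLp (fun x => conj (w x)) 2 (mu d) := (Lp.memLp w).star
  exact h1.integrable_mul (Lp.memLp h)

theorem exp_inner {d : ℝ} (w h : H d) (t : ℝ) :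
    inner ℝ w ((NormedSpace.exp (t • T d) : H d →L[ℝ] H d) h) =
      ∫ x, (gg w h x * Complex.exp ((t : ℂ) * cc x)).re ∂(mu d) := by
  have h1 : HasSum (fun n : ℕ => ((n ! : ℝ)⁻¹) • (t • T d) ^ n)
      (NormedSpace.exp (t • T d)) := NormedSpace.exp_series_hasSum_exp' (𝕂 := ℝ) (t • T d)
  have h2 := (((innerSL ℝ w).comp (ContinuousLinearMap.apply ℝ (H d) h))).hasSum h1
  have h3 : ∀ n : ℕ, ((innerSL ℝ w).comp (ContinuousLinearMap.apply ℝ (H d) h))
      (((n ! : ℝ)⁻¹) • (t • T d) ^ n) =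
      ∫ x, (gg w h x * (((t : ℂ) * cc x) ^ n / (n ! : ℂ))).re ∂(mu d) := by
    intro n
    have h4 : ((innerSL ℝ w).comp (ContinuousLinearMap.apply ℝ (H d) h))
      (((n ! : ℝ)⁻¹) • (t • T d) ^ n) = ((n ! : ℝ)⁻¹ * t ^ n) * inner ℝ w (((T d) ^ n) h) := by
      rw [smul_pow]
      simp only [ContinuousLinearMap.comp_apply, ContinuousLinearMap.apply_apply, innerSL_apply_apply]
      rw [smul_apply, smul_apply, inner_smul_right,
        inner_smul_right]
      ring
    rw [h4, L2.inner_def, ← integral_const_mul]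
    refine integral_congr_ae ?_
    filter_upwards [Tn_ae d h n] with x hx
    rw [hx, Complex.inner, ← Complex.re_ofReal_mul]
    congr 1
    rw [gg]
    push_cast
    rw [mul_pow]
    field_simp
  have h5 : HasSum (fun n : ℕ => ∫ x, (gg w h x * (((t : ℂ) * cc x) ^ n / (n ! : ℂ))).re ∂(mu d))
      (∫ x, (gg w h x * Complex.exp ((t : ℂ) * cc x)).re ∂(mu d)) := by
    have hm : AEStronglyMeasurable (gg w h) (mu d) := (int_gg w h).1
    refine hasSum_integral_of_dominated_convergence
      (fun n x => ‖gg w h x‖ * ((|t| * (1 + d)) ^ n / (n ! : ℝ))) ?_ ?_ ?_ ?_ ?_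
    · intro n
      have h6 : Continuous (fun x : ℝ => ((t : ℂ) * cc x) ^ n / (n ! : ℂ)) :=
        ((continuous_const.mul cc_cont).pow n).div_const _
      exact (Complex.continuous_re.comp_aestronglyMeasurable
        (hm.mul h6.aestronglyMeasurable))
    · intro n
      filter_upwards [ae_mem d] with x hx
      rw [Real.norm_eq_abs]
      refine (Complex.abs_re_le_norm _).trans ?_
      rw [norm_mul, norm_div, norm_pow, norm_mul, norm_cc, Complex.norm_real, Real.norm_eq_abs,
        Complex.norm_natCast]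
      gcongr
      rw [abs_of_nonneg (by linarith [hx.1])]
      exact hx.2
    · filter_upwards with x
      exact (NormedSpace.expSeries_div_summable (|t| * (1 + d))).mul_left _
    · have h7 : (fun x => ∑' n : ℕ, ‖gg w h x‖ * ((|t| * (1 + d)) ^ n / (n ! : ℝ))) =
          fun x => ‖gg w h x‖ * ∑' n : ℕ, ((|t| * (1 + d)) ^ n / (n ! : ℝ)) := by
        funext x
        rw [tsum_mul_left]
      rw [h7]
      exact (int_gg w h).norm.mul_const _
    · filter_upwards with x
      have h8 := NormedSpace.expSeries_div_hasSum_exp ((t : ℂ) * cc x)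
      rw [← Complex.exp_eq_exp_ℂ] at h8
      exact Complex.hasSum_re (h8.mul_left (gg w h x))
  have h9 : HasSum (fun n : ℕ => ((innerSL ℝ w).comp (ContinuousLinearMap.apply ℝ (H d) h))
      (((n ! : ℝ)⁻¹) • (t • T d) ^ n)) (∫ x, (gg w h x * Complex.exp ((t : ℂ) * cc x)).re ∂(mu d)) := by
    simp only [h3]
    exact h5
  exact h2.unique h9

theorem int_gg_exp {d : ℝ} (w h : H d) (t : ℝ) :
    Integrable (fun x => gg w h x * Complex.exp ((t : ℂ) * cc x)) (mu d) := by
  have h1 : Continuous (fun x : ℝ => Complex.exp ((t : ℂ) * cc x)) :=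
    Complex.continuous_exp.comp (continuous_const.mul cc_cont)
  refine (int_gg w h).mul_bdd (c := 1) h1.aestronglyMeasurable ?_
  filter_upwards with x
  rw [show (t : ℂ) * cc x = ((t * x : ℝ) : ℂ) * Complex.I by rw [cc]; push_cast; ring,
    Complex.norm_exp_ofReal_mul_I]

theorem weak {d : ℝ} (w h : H d) :
    Tendsto (fun t : ℝ => inner ℝ w ((NormedSpace.exp (t • T d) : H d →L[ℝ] H d) h))
      (cocompact ℝ) (𝓝 0) := by
  have h1 := Real.tendsto_integral_exp_smul_cocompact ((Icc (1 : ℝ) (1 + d)).indicator (gg w h))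
  have hne : -(2 * Real.pi)⁻¹ ≠ 0 := neg_ne_zero.2 (inv_ne_zero (by positivity))
  have h2 : Tendsto (fun t : ℝ => -(2 * Real.pi)⁻¹ * t) (cocompact ℝ) (cocompact ℝ) :=
    (Homeomorph.mulLeft₀ _ hne).isClosedEmbedding.tendsto_cocompact
  have h3 := h1.comp h2
  have h4 := (Complex.continuous_re.tendsto 0).comp h3
  rw [Complex.zero_re] at h4
  refine h4.congr fun t => ?_
  rw [exp_inner]
  simp only [Function.comp_apply]
  have h5 : ∫ x, (gg w h x * Complex.exp ((t : ℂ) * cc x)).re ∂(mu d) =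
      (∫ x, (gg w h x * Complex.exp ((t : ℂ) * cc x)) ∂(mu d)).re :=
    integral_re (int_gg_exp w h t)
  rw [h5]
  congr 1
  rw [mu, ← integral_indicator measurableSet_Icc]
  refine integral_congr_ae ?_
  filter_upwards with x
  by_cases hx : x ∈ Icc (1 : ℝ) (1 + d)
  · rw [indicator_of_mem hx, indicator_of_mem hx, Circle.smul_def, Real.fourierChar_apply,
      smul_eq_mul, mul_comm]
    congr 2
    rw [cc]
    push_cast
    field_simp
  · rw [indicator_of_notMem hx, indicator_of_notMem hx, smul_zero]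

theorem nontriv {d : ℝ} (hd : 0 < d) : Nontrivial (H d) := by
  refine ⟨⟨indicatorConstLp 2 (MeasurableSet.univ) (measure_ne_top (mu d) _) (1 : ℂ), 0, ?_⟩⟩
  intro h
  have h1 := congrArg norm h
  rw [norm_indicatorConstLp (by norm_num) (by norm_num), norm_one, one_mul, norm_zero] at h1
  have h2 : (mu d).real univ = d := by
    rw [mu, measureReal_restrict_apply MeasurableSet.univ, univ_inter, Real.volume_real_Icc]
    rw [max_eq_left (by linarith)]
    ring
  rw [h2] at h1
  have h3 : 0 < d ^ (1 / (2 : ℝ≥0∞).toReal) := Real.rpow_pos_of_pos hd _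
  linarith

theorem t_M : Pool.Agent.Y896.SH.S_M := by
  intro δ hδ
  have hd : 0 < min 1 (δ / 3) := lt_min one_pos (by positivity)
  have : Fact ((2 : ℝ≥0∞) ≠ ∞) := ⟨by norm_num⟩
  refine ⟨H (min 1 (δ / 3)), inferInstance, inferInstance, inferInstance, inferInstance,
    nontriv hd, T _, skew _, norm_bound _ δ hδ hd (min_le_left _ _) (min_le_right _ _),
    fun w h => weak w h⟩

end

end Pool.Agent.Y974.SH
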